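import Mathlib
import Pool.Agent.Lib.MP_b60f05_co.Defs
import Pool.Agent.Lib.MP_b60f05_co.Proof26

set_option autoImplicit false

open Pool.Agent.Lib.MP_b60f05_co

namespace Pool.Agent.Results.MP_b60f05_co.NoProduct

/-- The Thue-Morse morphism `0 ↦ 01, 1 ↦ 10`. -/
def tm (a : Bool) : List Bool := [a, !a]

/-- The composition `ψ₁ ∘ ⋯ ∘ ψ_m` of a list of morphisms. -/
def comp (L : List (Bool → List Bool)) (a : Bool) : List Bool :=
  L.foldr (fun φ w => w.flatMap φ) [a]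

/-- There is an aperiodic binary generalized pseudostandard word, not standard Sturmian, that is
fixed by a primitive morphism but by none of the morphisms `φ_k`, `k ≥ 1`, and by no nonempty
composition of these and the Thue-Morse morphism. -/
theorem result : ∃ u : ℕ → Bool, (∃ Δ Θ : ℕ → Bool, Generates Δ Θ u) ∧ Aperiodic u ∧
    (¬ ∃ Δ : ℕ → Bool, Generates Δ (fun _ => false) u) ∧
    (∃ φ : Bool → List Bool, Primitive φ ∧ Fixes φ u) ∧
    (∀ k : ℕ, 1 ≤ k → ¬ Fixes (phi k) u) ∧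
    ∀ L : List (Bool → List Bool), L ≠ [] →
      (∀ ψ ∈ L, ψ = tm ∨ ∃ k : ℕ, 1 ≤ k ∧ ψ = phi k) → ¬ Fixes (comp L) u :=
  ⟨W26.uu, ⟨_, _, W26.generates_uu⟩, W26.aperiodic_uu, W26.not_sturmian,
    ⟨W26.psi, W26.primitive_psi, W26.fixes_psi⟩, W26.not_fixes_phi, W26.not_fixes_prod⟩

end Pool.Agent.Results.MP_b60f05_co.NoProduct
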